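import Pool.Agent.N206.HJ.Stm

/-!
# Project HJ: products, inverses and conjugates of approximated automorphisms
-/

set_option autoImplicit false

namespace Pool.Agent.N488.HJ

open Pool.Agent.N206.HJ MvPowerSeries

variable {p : ℕ}

lemma sub_mem_of_Ap {u : Au p} {D : Fin 3 → A p} {m R : ℕ} (hD : ∀ i, D i ∈ M p m)
    (hu : Ap (m + R) D u) (i : Fin 3) : u (X i) - X i ∈ M p m := by
  have h1 : u (X i) - X i = (u (X i) - X i - D i) + D i := by ring
  rw [h1]
  exact Ideal.add_mem _ (M_anti (by omega) (hu i)) (hD i)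

theorem t_ADD (p : ℕ) [Fact p.Prime] (h : S_DET2 p) : S_ADD p := by
  intro u v D E m R hu hv hD hE hm hR hAu hAv
  have hu1 : u ∈ Ga p (m - 1) := h.2 u hu (m - 1) (fun i => by
    rw [show m - 1 + 1 = m by omega]
    exact sub_mem_of_Ap hD hAu i)
  constructor
  · intro i
    have h1 : v (X i) - X i ∈ M p m := sub_mem_of_Ap hE hAv i
    have h2 : u (v (X i) - X i) - (v (X i) - X i) ∈ M p (m + R) :=
      M_anti (by omega) (Ga_sub hu1 h1)
    have h3 : (u * v) (X i) - X i - (D i + E i) =
        (u (X i) - X i - D i) + (u (v (X i) - X i) - (v (X i) - X i)) +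
          (v (X i) - X i - E i) := by
      rw [mul_ap, map_sub]; ring
    show (u * v) (X i) - X i - (D i + E i) ∈ M p (m + R)
    rw [h3]
    exact Ideal.add_mem _ (Ideal.add_mem _ (hAu i) h2) (hAv i)
  · intro i
    have hui : u⁻¹ ∈ Ga p (m - 1) := Subgroup.inv_mem _ hu1
    have h1 : u (X i) - X i ∈ M p m := sub_mem_of_Ap hD hAu i
    have h2 : u⁻¹ (u (X i) - X i) - (u (X i) - X i) ∈ M p (m + R) :=
      M_anti (by omega) (Ga_sub hui h1)
    have h3 : u⁻¹ (X i) - X i - -D i =
        -(u⁻¹ (u (X i) - X i) - (u (X i) - X i)) - (u (X i) - X i - D i) := by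
      rw [map_sub, ap_inv]; ring
    show u⁻¹ (X i) - X i - -D i ∈ M p (m + R)
    rw [h3]
    exact Ideal.sub_mem _ (Ideal.neg_mem_iff _ |>.2 h2) (hAu i)

lemma vf_one (D : Fin 3 → A p) : vf D (1 : A p) = 0 := by
  have h := vf_mul D (1 : A p) 1
  rw [one_mul, one_mul] at h
  exact left_eq_add.1 h

theorem t_CONJ (p : ℕ) [Fact p.Prime] (_ : S_DET2 p) (h2 : S_TAY p) : S_CONJ p := by
  intro u h a b D m n R hab hu hh hpn hn hm hTr hAu
  have hXD : ∀ i, X a ^ m * D i ∈ M p m := fun i => M_mul_right (Xpow_mem a m)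
  have hum : ∀ i, u (X i) - X i ∈ M p m := fun i => sub_mem_of_Ap hXD hAu i
  -- the action on an arbitrary element of order one
  have key : ∀ f ∈ M p 1, u f - f - X a ^ m * vf D f ∈ M p (m + R) := by
    intro f hf
    have h3 : u f - f - vf (fun i => u (X i) - X i) f ∈ M p (m + R) :=
      M_anti (by omega) (h2 u m (by omega) hu hum 1 f hf)
    have h4 : vf (fun i => u (X i) - X i) f - X a ^ m * vf D f ∈ M p (m + R) := by
      have h5 : vf (fun i => u (X i) - X i) f - X a ^ m * vf D f =
          ∑ j : Fin 3, (u (X j) - X j - X a ^ m * D j) * pderiv (ZMod p) j f := by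
        simp only [vf, Finset.mul_sum, ← Finset.sum_sub_distrib]
        exact Finset.sum_congr rfl fun j _ => by ring
      rw [h5]
      exact Ideal.sum_mem _ fun j _ => M_mul_right (hAu j)
    have h6 : u f - f - X a ^ m * vf D f =
        (u f - f - vf (fun i => u (X i) - X i) f) +
          (vf (fun i => u (X i) - X i) f - X a ^ m * vf D f) := by ring
    rw [h6]
    exact Ideal.add_mem _ h3 h4
  have hhi : h⁻¹ ∈ Ga p 1 := Subgroup.inv_mem _ hh
  have hXa : h (X a) = X a := hTr.2 a hab
  have hy : ∀ i, vf D (h⁻¹ (X i)) = D i := by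
    intro i
    by_cases hib : i = b
    · rw [hib]
      have h3 : h (X b - X a ^ n) = X b := by
        rw [map_sub, map_pow, hXa, hTr.1]; ring
      have h4 : h⁻¹ (X b) = X b - X a ^ n := by
        conv_lhs => rw [← h3]
        rw [ap_inv]
      have h5 : vf D (X a ^ n) = 0 := by
        have h6 := vf_Xpow_mul D a n hpn 1
        rwa [vf_one, mul_zero, mul_one] at h6
      rw [h4, vf_sub, vf_X, h5, sub_zero]
    · have h3 : h (X i) = X i := hTr.2 i hib
      have h4 : h⁻¹ (X i) = X i := by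
        conv_lhs => rw [← h3]
        rw [ap_inv]
      rw [h4, vf_X]
  intro i
  have h3 := key (h⁻¹ (X i)) (Ga_pres hhi (X_mem i))
  rw [hy] at h3
  have h4 := Ga_pres hh h3
  rw [map_sub, map_sub, inv_ap, map_mul, map_pow, hXa] at h4
  exact h4

end Pool.Agent.N488.HJ
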